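import Pool.Agent.T6.H35.GF.Back
import Pool.Agent.T6.H35.RS.Fib

set_option autoImplicit false
set_option linter.unusedSectionVars false

/-!
# The words with values in a given class form a regular language
-/

namespace Pool.Agent.T6.H35.GF

open NumberField Polynomial IsDedekindDomain Pool.Agent.T6.H54.PM
open Pool.Agent.T6.H35.RS (Neat Pth pth_dfa lift_prod IsRational)

/-- the vector `M ρ(z) x` -/
def pt {K : Type} [Field K] {S : Type} {n r : ℕ} (M : Matrix (Fin n) (Fin r) K)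
    (ρ : S → Matrix (Fin r) (Fin r) K) (x : Fin r → K) (z : S) : Fin n → K :=
  M.mulVec ((ρ z).mulVec x)

/-- the vector `M ρ(a₁) ⋯ ρ(a_m) x` for the word `l = a₁ ⋯ a_m` -/
def wvec {K : Type} [Field K] {A : Type} {n r : ℕ} (M : Matrix (Fin n) (Fin r) K)
    (ρ : A → Matrix (Fin r) (Fin r) K) (x : Fin r → K) (l : List A) : Fin n → K :=
  M.mulVec ((l.map ρ).prod.mulVec x)

variable {K : Type} [Field K]

/-- a general form: all predicates and equivalence relations with the property `Tst` -/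
theorem classes_gen [CharZero K] {G : ∀ s : ℕ, Matrix (Fin s) (Fin s) K → Prop} (hcyc : Cyc G)
    {A : Type} [Finite A] {𝓛 : Language A} (h𝓛 : 𝓛.IsRegular) {s : ℕ}
    (ρ : A → Matrix (Fin s) (Fin s) K) (hG : ∀ l : List A, G s (l.map ρ).prod) :
    ∃ N₀ : ℕ, ∀ (n : ℕ) (On : (Fin n → K) → Prop) (Rel : (Fin n → K) → (Fin n → K) → Prop),
      Tst G On Rel → ∀ (M : Matrix (Fin n) (Fin s) K) (v : Fin s → K),
        (∀ l ∈ 𝓛, On (wvec M ρ v l)) →
        ∀ (C : (Fin n → K) → Prop), (∀ a b, Rel a b → (C a ↔ C b)) →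
          Language.IsRegular {l | l ∈ 𝓛 ∧ C (wvec M ρ v l)} ∧
          (Set.range (Language.leftQuotient {l | l ∈ 𝓛 ∧ C (wvec M ρ v l)})).encard ≤
            (N₀ : ℕ∞) := by
  classical
  obtain ⟨σ, hσ, D, rfl⟩ := h𝓛
  let E : σ → σ → Set (FreeMonoid A) := fun i j =>
    {x : FreeMonoid A | ∃ a, x = FreeMonoid.of a ∧ D.step i a = j}
  have hE : ∀ i j, (E i j).Finite := by
    intro i j
    refine (Set.finite_range (FreeMonoid.of (α := A))).subset ?_
    rintro _ ⟨a, rfl, -⟩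
    exact ⟨a, rfl⟩
  let ρ' : FreeMonoid A →* Matrix (Fin s) (Fin s) K := FreeMonoid.lift ρ
  have hG' : ∀ i z, Pth E i i z → G s (ρ' z) := by
    intro i z _
    have h1 := hG (FreeMonoid.toList z)
    rw [← lift_prod, FreeMonoid.ofList_toList] at h1
    exact h1
  have hR := fun i j => FinRep.rep hcyc ρ' E hE hG' i j
  choose R hR1 hR2 hR3 using hR
  have hfin : (⋃ i, R D.start i).Finite := Set.finite_iUnion fun i => hR2 _ i
  refine ⟨(⋃ i, R D.start i).ncard, ?_⟩
  intro n On Rel hT M v hX C hC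
  set 𝓒 : Language A := {l | l ∈ D.accepts ∧ C (wvec M ρ v l)} with h𝓒
  have hval : ∀ u x : List A, wvec M ρ v (u ++ x) =
      val M (ρ' (FreeMonoid.ofList u)) ((x.map ρ).prod.mulVec v) := by
    intro u x
    unfold wvec val
    rw [List.map_append, List.prod_append, ← Matrix.mulVec_mulVec, lift_prod]
  have hLQ : ∀ u : List A, ∃ r ∈ ⋃ i, R D.start i,
      𝓒.leftQuotient u = 𝓒.leftQuotient (FreeMonoid.toList r) := by
    intro u
    have hu : Pth E D.start (D.eval u) (FreeMonoid.ofList u) :=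
      (pth_dfa D _ _ (FreeMonoid.ofList u)).2 rfl
    have hacc : ∀ (z : FreeMonoid A), Pth E D.start (D.eval u) z → ∀ x : List A,
        D.evalFrom (D.eval u) x ∈ D.accept → FreeMonoid.toList z ++ x ∈ D.accepts := by
      intro z hz x hx
      have h2 : D.eval (FreeMonoid.toList z) = D.eval u := (pth_dfa D _ _ z).1 hz
      rw [DFA.mem_accepts]
      show D.evalFrom D.start (FreeMonoid.toList z ++ x) ∈ D.accept
      rw [DFA.evalFrom_of_append]
      have h3 : D.evalFrom D.start (FreeMonoid.toList z) = D.eval u := h2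
      rw [h3]
      exact hx
    obtain ⟨r, hr, h1⟩ := hR3 D.start (D.eval u) _ hu n On Rel hT
      {x : List A // D.evalFrom (D.eval u) x ∈ D.accept} (fun _ => M)
      (fun x => ((x.1.map ρ).prod.mulVec v)) (fun x z hz => by
        have h3 := hval (FreeMonoid.toList z) x.1
        rw [FreeMonoid.ofList_toList] at h3
        rw [← h3]
        exact hX _ (hacc z hz x.1 x.2))
    have hr' : D.eval (FreeMonoid.toList r) = D.eval u :=
      (pth_dfa D _ _ r).1 (hR1 _ _ hr)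
    refine ⟨r, Set.mem_iUnion.2 ⟨_, hr⟩, ?_⟩
    have hrel : ∀ x : List A, D.evalFrom (D.eval u) x ∈ D.accept →
        Rel (wvec M ρ v (u ++ x)) (wvec M ρ v (FreeMonoid.toList r ++ x)) := by
      intro x hx
      have h2 := h1 ⟨x, hx⟩
      have h3 := hval (FreeMonoid.toList r) x
      rw [FreeMonoid.ofList_toList] at h3
      rw [← h3, ← hval] at h2
      exact h2
    have hacc2 : ∀ x : List A, u ++ x ∈ D.accepts ↔ D.evalFrom (D.eval u) x ∈ D.accept := by
      intro x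
      rw [DFA.mem_accepts]
      show D.evalFrom D.start (u ++ x) ∈ D.accept ↔ _
      rw [DFA.evalFrom_of_append]
      rfl
    have hacc3 : ∀ x : List A, FreeMonoid.toList r ++ x ∈ D.accepts ↔
        D.evalFrom (D.eval u) x ∈ D.accept := by
      intro x
      rw [DFA.mem_accepts]
      show D.evalFrom D.start (FreeMonoid.toList r ++ x) ∈ D.accept ↔ _
      rw [DFA.evalFrom_of_append]
      have h3 : D.evalFrom D.start (FreeMonoid.toList r) = D.eval u := hr'
      rw [h3]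
    ext x
    rw [Language.mem_leftQuotient, Language.mem_leftQuotient]
    constructor
    · rintro ⟨h2, h3⟩
      have h5 := (hacc2 x).1 h2
      exact ⟨(hacc3 x).2 h5, (hC _ _ (hrel x h5)).1 h3⟩
    · rintro ⟨h2, h3⟩
      have h5 := (hacc3 x).1 h2
      exact ⟨(hacc2 x).2 h5, (hC _ _ (hrel x h5)).2 h3⟩
  have hsub : Set.range 𝓒.leftQuotient ⊆
      (fun r => 𝓒.leftQuotient (FreeMonoid.toList r)) '' (⋃ i, R D.start i) := by
    rintro _ ⟨u, rfl⟩
    obtain ⟨r, hr, h⟩ := hLQ u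
    exact ⟨r, hr, h.symm⟩
  refine ⟨Language.IsRegular.of_finite_range_leftQuotient ((hfin.image _).subset hsub), ?_⟩
  refine (Set.encard_le_encard hsub).trans ((Set.encard_image_le _ _).trans ?_)
  rw [← hfin.cast_ncard_eq]

variable [NumberField K]

/-- every polynomial orbifold curve through `a` is constant -/
def Isolated {N q w : ℕ} (FF : Set (MvPolynomial (Fin (N + 1)) (𝓞 K)))
    (B : Fin q → Fin w → MvPolynomial (Fin (N + 1)) (𝓞 K)) (m : Fin q → ℕ∞)
    (a : Fin (N + 1) → K) : Prop :=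
  ∀ f : Fin (N + 1) → K[X], OrbifoldCurve FF B m f → ∀ s t : K,
    Same a (fun j => (f j).eval s) → Same a (fun j => (f j).eval t)

theorem Isolated.same {N q w : ℕ} {FF : Set (MvPolynomial (Fin (N + 1)) (𝓞 K))}
    {B : Fin q → Fin w → MvPolynomial (Fin (N + 1)) (𝓞 K)} {m : Fin q → ℕ∞}
    {a b : Fin (N + 1) → K} (h : Isolated FF B m a) (hab : Joined FF B m a b) : Same a b := by
  induction hab with
  | refl => exact Same.rfl' a
  | @tail b c _ hbc ih =>
    obtain ⟨f, hf, s, t, h1, h2⟩ := hbc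
    exact (h f hf s t (ih.trans h1)).trans h2.symm

/-- representatives of the values of a rational series -/
theorem camp_main {S : Type} [Monoid S] {𝓛 : Set S} (h𝓛 : IsRational 𝓛) {r : ℕ}
    (ρ : S →* Matrix (Fin r) (Fin r) K) (hρ : ∀ z, Cycl K r (ρ z)) :
    ∃ 𝓕 ⊆ 𝓛, 𝓕.Finite ∧
      ∀ (N : ℕ) (FF : Set (MvPolynomial (Fin (N + 1)) (𝓞 K))),
        (∀ G ∈ FF, ∃ e, G.IsHomogeneous e) →
      ∀ (q w : ℕ) (B : Fin q → Fin w → MvPolynomial (Fin (N + 1)) (𝓞 K)) (m : Fin q → ℕ∞)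
        (S₀ : Set (HeightOneSpectrum (𝓞 K))), S₀.Finite →
      ∀ (M : Matrix (Fin (N + 1)) (Fin r) K) (x : Fin r → K),
        (∀ z ∈ 𝓛, OnPair FF B m S₀ (pt M ρ x z)) →
        ∀ z ∈ 𝓛, ∃ z' ∈ 𝓕, Joined FF B m (pt M ρ x z) (pt M ρ x z') := by
  obtain ⟨𝓕, h1, h2, h3⟩ := FinRep.rational cyc_cycl ρ hρ h𝓛
  refine ⟨𝓕, h1, h2, ?_⟩
  intro N FF hFF q w B m S₀ hS₀ M x hX z hz
  obtain ⟨z', hz', h4⟩ := h3 z hz (N + 1) _ _ (tst_camp FF hFF B m S₀ hS₀) Unit
    (fun _ => M) (fun _ => x) (fun _ z hz => hX z hz)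
  exact ⟨z', hz', h4 ()⟩

end Pool.Agent.T6.H35.GF
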