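import Pool.Agent.T6.H35.GF.Rep

set_option autoImplicit false

/-!
# Matrices whose nonzero eigenvalues are roots of unity

Neat matrices with this property are unipotent, so their powers are polynomial in the exponent.
-/

namespace Pool.Agent.T6.H35.GF

open Polynomial
open Pool.Agent.T6.H35.RS (Neat)

variable {K : Type} [Field K]

/-- every eigenvalue of `g` (in the algebraic closure) is zero or a root of unity -/
def Cycl (K : Type) [Field K] (s : ℕ) (g : Matrix (Fin s) (Fin s) K) : Prop :=
  ∀ (μ : AlgebraicClosure K) (w : Fin s → AlgebraicClosure K), w ≠ 0 →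
    (g.map (algebraMap K (AlgebraicClosure K))).mulVec w = μ • w →
    μ = 0 ∨ ∃ m : ℕ, 0 < m ∧ μ ^ m = 1

theorem cyc_cycl : Cyc (Cycl K) where
  one := by
    intro s μ w hw h
    right
    refine ⟨1, one_pos, ?_⟩
    rw [Matrix.map_one _ (map_zero _) (map_one _), Matrix.one_mulVec] at h
    obtain ⟨i, hi⟩ := Function.ne_iff.1 hw
    have h1 := congrFun h i
    rw [Pi.smul_apply, smul_eq_mul] at h1
    have hi' : w i ≠ 0 := hi
    rw [pow_one]
    exact (mul_eq_right₀ hi').1 h1.symm
  swap := by
    intro s t X Y h μ w hw hwμ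
    by_cases hμ : μ = 0
    · exact Or.inl hμ
    set φ := algebraMap K (AlgebraicClosure K)
    have h1 : ((Y * X).map φ) = Y.map φ * X.map φ := Matrix.map_mul
    have h2 : ((X * Y).map φ) = X.map φ * Y.map φ := Matrix.map_mul
    rw [h1, ← Matrix.mulVec_mulVec] at hwμ
    refine h μ ((X.map φ).mulVec w) ?_ ?_
    · intro h0
      rw [h0, Matrix.mulVec_zero] at hwμ
      exact (smul_ne_zero hμ hw) hwμ.symm
    · rw [h2, ← Matrix.mulVec_mulVec, hwμ, Matrix.mulVec_smul]

/-- a neat matrix whose eigenvalues are roots of unity is unipotent -/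
theorem unip {s : ℕ} (g : Matrix (Fin s) (Fin s) K) (hn : Neat g) (hc : Cycl K s g) :
    (g - 1) ^ s = 0 := by
  classical
  obtain ⟨⟨g', hg'⟩, U, hU, hUe⟩ := hn
  set φ := algebraMap K (AlgebraicClosure K) with hφ
  set G := g.map φ with hG
  have heig : ∀ (μ : AlgebraicClosure K), G.charpoly.IsRoot μ → μ = 1 := by
    intro μ hμ
    have h1 : (Matrix.scalar (Fin s) μ - G).det = 0 := by
      rw [← Matrix.eval_charpoly]
      exact hμ
    obtain ⟨w, hw, hw2⟩ := Matrix.exists_mulVec_eq_zero_iff.2 h1
    have h2 : G.mulVec w = μ • w := by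
      rw [Matrix.sub_mulVec, sub_eq_zero] at hw2
      rw [← hw2]
      ext i
      simp [Matrix.scalar_apply, Matrix.mulVec_diagonal]
    obtain ⟨u, huU, hu⟩ := hUe μ w hw h2
    rcases hc μ w hw h2 with h0 | ⟨m, hm, h3⟩
    · exact absurd (hu.trans h0) u.ne_zero
    · have h4 : u ^ m = 1 := by
        apply Units.ext
        rw [Units.val_pow_eq_pow_val, hu, h3, Units.val_one]
      have h5 := hU u huU m hm h4
      rw [← hu, h5, Units.val_one]
  have hsp : G.charpoly.Splits := IsAlgClosed.splits _
  have hmon := G.charpoly_monic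
  have hroots : G.charpoly.roots = Multiset.replicate s 1 := by
    have hcard : G.charpoly.roots.card = s := by
      rw [← hsp.natDegree_eq_card_roots, Matrix.charpoly_natDegree_eq_dim, Fintype.card_fin]
    refine Multiset.eq_replicate.2 ⟨hcard, ?_⟩
    intro b hb
    exact heig b ((Polynomial.mem_roots hmon.ne_zero).1 hb)
  have hchar : G.charpoly = (X - C 1) ^ s := by
    have h1 := hsp.eq_prod_roots_of_monic hmon
    rw [h1, hroots, Multiset.map_replicate, Multiset.prod_replicate]
  have h2 := Matrix.aeval_self_charpoly G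
  rw [hchar, map_pow, map_sub, aeval_X, aeval_C, map_one] at h2
  have h3 : ((g - 1) ^ s).map φ = 0 := by
    have h4 : ((g - 1) ^ s).map φ = (g.map φ - 1) ^ s := by
      have := map_pow (φ.mapMatrix (m := Fin s)) (g - 1) s
      rw [map_sub, map_one] at this
      exact this
    rw [h4]
    exact h2
  ext i j
  have h5 := congrFun (congrFun h3 i) j
  rw [Matrix.map_apply, Matrix.zero_apply] at h5
  exact (map_eq_zero_iff φ φ.injective).1 h5

/-- powers of a unipotent matrix -/
theorem exists_poly [CharZero K] {n s : ℕ} (A : Matrix (Fin n) (Fin s) K)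
    (g : Matrix (Fin s) (Fin s) K) (y : Fin s → K) (hg : (g - 1) ^ s = 0) :
    ∃ p : Fin n → K[X], ∀ (m : ℕ) (i : Fin n),
      A.mulVec ((g ^ m).mulVec y) i = (p i).eval (m : K) := by
  classical
  refine ⟨fun i => ∑ j ∈ Finset.range s,
    C (A.mulVec (((g - 1) ^ j).mulVec y) i * ((j.factorial : K))⁻¹) * descPochhammer K j, ?_⟩
  intro m i
  have h1 : g ^ m = ∑ j ∈ Finset.range s, (m.choose j : K) • (g - 1) ^ j := by
    have h2 : g ^ m = (g - 1 + 1) ^ m := by rw [sub_add_cancel]
    rw [h2, (Commute.one_right (g - 1)).add_pow]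
    simp only [one_pow, mul_one]
    have h3 : ∀ j ∈ Finset.range (m + 1), (g - 1) ^ j * ((m.choose j : ℕ) : Matrix (Fin s) (Fin s) K)
        = (m.choose j : K) • (g - 1) ^ j := by
      intro j _
      rw [← nsmul_eq_mul', ← Nat.cast_smul_eq_nsmul K]
    rw [Finset.sum_congr rfl h3]
    have hz1 : ∀ j, s ≤ j → (m.choose j : K) • (g - 1) ^ j = 0 := by
      intro j hj
      rw [pow_eq_zero_of_le hj hg, smul_zero]
    have hz2 : ∀ j, m + 1 ≤ j → (m.choose j : K) • (g - 1) ^ j = 0 := by
      intro j hj
      rw [Nat.choose_eq_zero_of_lt (by omega), Nat.cast_zero, zero_smul]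
    have e1 : ∑ j ∈ Finset.range (m + 1), (m.choose j : K) • (g - 1) ^ j =
        ∑ j ∈ Finset.range (max (m + 1) s), (m.choose j : K) • (g - 1) ^ j := by
      refine Finset.sum_subset (Finset.range_mono (le_max_left _ _)) ?_
      intro j _ hj
      exact hz2 j (by simpa using hj)
    have e2 : ∑ j ∈ Finset.range s, (m.choose j : K) • (g - 1) ^ j =
        ∑ j ∈ Finset.range (max (m + 1) s), (m.choose j : K) • (g - 1) ^ j := by
      refine Finset.sum_subset (Finset.range_mono (le_max_right _ _)) ?_
      intro j _ hj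
      exact hz1 j (by simpa using hj)
    rw [e1, e2]
  have h4 : A.mulVec ((g ^ m).mulVec y) =
      ∑ j ∈ Finset.range s, (m.choose j : K) • A.mulVec (((g - 1) ^ j).mulVec y) := by
    rw [h1, Matrix.sum_mulVec, Matrix.mulVec_sum]
    refine Finset.sum_congr rfl fun j _ => ?_
    rw [Matrix.smul_mulVec, Matrix.mulVec_smul]
  rw [h4, Finset.sum_apply, eval_finsetSum]
  refine Finset.sum_congr rfl fun j _ => ?_
  rw [Pi.smul_apply, smul_eq_mul, eval_mul, eval_C, descPochhammer_eval_eq_descFactorial,
    Nat.descFactorial_eq_factorial_mul_choose]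
  have h5 : (j.factorial : K) ≠ 0 := by exact_mod_cast j.factorial_ne_zero
  push_cast
  field_simp

end Pool.Agent.T6.H35.GF
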