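import Pool.Agent.T6.H35.GF.Vals

set_option autoImplicit false
set_option linter.unusedSectionVars false

/-!
# Polynomial orbifold curves are the polynomial curves with integral values
-/

namespace Pool.Agent.T6.H35.GF

open NumberField Polynomial IsDedekindDomain Pool.Agent.T6.H54.PM

variable {K : Type} [Field K] [NumberField K]

theorem common_den {N : ℕ} (f : Fin (N + 1) → K[X]) : ∃ β : 𝓞 K, β ≠ 0 ∧
    ∃ F : Fin (N + 1) → (𝓞 K)[X], ∀ j, (F j).map (algebraMap (𝓞 K) K) = C (β : K) * f j := by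
  classical
  choose F₁ b hb hF₁ using fun j => clear (f j)
  refine ⟨∏ j, b j, Finset.prod_ne_zero_iff.2 fun j _ => hb j,
    fun j => C (∏ k ∈ Finset.univ.erase j, b k) * F₁ j, ?_⟩
  intro j
  rw [Polynomial.map_mul, hF₁ j, map_C]
  have e1 : ((∏ j, b j : 𝓞 K) : K) =
      algebraMap (𝓞 K) K (∏ k ∈ Finset.univ.erase j, b k) * (b j : K) := by
    rw [← Finset.prod_erase_mul Finset.univ b (Finset.mem_univ j)]
    exact map_mul _ _ _
  rw [e1, C_mul]
  ring

theorem finite_primes (D : 𝓞 K) (hD : D ≠ 0) :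
    {v : HeightOneSpectrum (𝓞 K) | D ∈ v.asIdeal}.Finite := by
  have h1 : {v : HeightOneSpectrum (𝓞 K) | v.asIdeal ∣ Ideal.span {D}}.Finite := by
    refine Ideal.finite_factors ?_
    rw [Ne, Ideal.zero_eq_bot, Ideal.span_singleton_eq_bot]
    exact hD
  refine h1.subset fun v hv => ?_
  rw [Set.mem_ofPred_eq, Ideal.dvd_span_singleton]
  exact hv

theorem int_of_orb {N q w : ℕ} (FF : Set (MvPolynomial (Fin (N + 1)) (𝓞 K)))
    (B : Fin q → Fin w → MvPolynomial (Fin (N + 1)) (𝓞 K))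
    (hB : ∀ i l, ∃ e, (B i l).IsHomogeneous e) (m : Fin q → ℕ∞)
    (f : Fin (N + 1) → K[X]) (hf : OrbifoldCurve FF B m f) :
    ∃ S₀ : Set (HeightOneSpectrum (𝓞 K)), S₀.Finite ∧
      ∀ k : ℕ, OnPair FF B m S₀ (fun j => (f j).eval (k : K)) := by
  classical
  obtain ⟨⟨u, hu⟩, hX, horb⟩ := hf
  obtain ⟨β, hβ, F, hF⟩ := common_den f
  have hβK : (β : K) ≠ 0 := fun h0 => hβ (RingOfIntegers.coe_injective (h0.trans (map_zero _).symm))
  obtain ⟨E, hE, u', hu'⟩ := prim_at F ⟨fun j => C ((β : K)⁻¹) * u j, by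
    rw [← hu]
    refine Finset.sum_congr rfl fun j _ => ?_
    rw [hF j]
    have h3 : C ((β : K)⁻¹) * C (β : K) = (1 : K[X]) := by
      rw [← C_mul, inv_mul_cancel₀ hβK, C_1]
    linear_combination (u j * f j) * h3⟩
  choose e he using hB
  have hmap : ∀ i l, (MvPolynomial.aeval F (B i l)).map (algebraMap (𝓞 K) K) =
      C ((β : K) ^ e i l) *
        MvPolynomial.aeval f (MvPolynomial.map (algebraMap (𝓞 K) K) (B i l)) := by
    intro i l
    rw [map_aeval']
    have h1 : (fun j => (F j).map (algebraMap (𝓞 K) K)) = fun j => C (β : K) * f j :=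
      funext hF
    rw [h1, Pool.Agent.H458.Sp.aeval_smul_homog _ ((he i l).map (algebraMap (𝓞 K) K)), C_pow]
  have hunit : ∀ i l, IsUnit (C ((β : K) ^ e i l) : K[X]) := fun i l =>
    Polynomial.isUnit_C.2 (IsUnit.mk0 _ (pow_ne_zero _ hβK))
  have hD : ∀ i, ∃ D : 𝓞 K, D ≠ 0 ∧ ∀ v : HeightOneSpectrum (𝓞 K), D ∉ v.asIdeal →
      ∀ k : 𝓞 K, (∀ l, (MvPolynomial.aeval F (B i l)).eval k ∈ v.asIdeal) →
        ∀ n : ℕ, (n : ℕ∞) ≤ m i →
          ∀ l, (MvPolynomial.aeval F (B i l)).eval k ∈ v.asIdeal ^ n := by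
    intro i
    refine vals_top (fun l => MvPolynomial.aeval F (B i l)) (m i) ?_
    intro π hπ hdiv n hn l
    rw [hmap]
    refine Dvd.dvd.mul_left ?_ _
    refine horb i π hπ (fun l' => ?_) n hn l
    have h1 := hdiv l'
    rw [hmap] at h1
    exact ((hunit i l').dvd_mul_left).1 h1
  choose D hD0 hD using hD
  refine ⟨{v | E ∈ v.asIdeal} ∪ ⋃ i, {v | D i ∈ v.asIdeal}, ?_, ?_⟩
  · exact (finite_primes E hE).union (Set.finite_iUnion fun i => finite_primes _ (hD0 i))
  intro k
  have hFk : ∀ j, (((F j).eval (k : 𝓞 K) : 𝓞 K) : K) = β * (f j).eval (k : K) := by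
    intro j
    have h1 := Polynomial.eval_natCast_map (algebraMap (𝓞 K) K) (F j) k
    rw [hF j, eval_mul, eval_C] at h1
    exact h1.symm
  refine ⟨?_, ?_, ?_⟩
  · intro h0
    have h1 := congrArg (eval (k : K)) hu
    rw [eval_finsetSum, eval_one] at h1
    have h2 : ∀ j, (f j).eval (k : K) = 0 := fun j => congrFun h0 j
    rw [Finset.sum_eq_zero fun j _ => by rw [eval_mul, h2 j, mul_zero]] at h1
    exact zero_ne_one h1
  · intro G hG
    have h1 := congrArg (eval (k : K)) (hX G hG)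
    rw [eval_aeval', eval_zero, MvPolynomial.eval_map] at h1
    rw [MvPolynomial.aeval_def]
    exact h1
  · intro v hv a x ha hx hprim i hxv n hn l
    rw [Set.mem_union, not_or] at hv
    obtain ⟨hv1, hv2⟩ := hv
    have hv1' : E ∉ v.asIdeal := hv1
    have hv2' : D i ∉ v.asIdeal := fun h1 => hv2 (Set.mem_iUnion.2 ⟨i, h1⟩)
    have hprime : v.asIdeal.IsPrime := v.isPrime
    obtain ⟨j₀, hj₀⟩ := hprim
    obtain ⟨j₁, hj₁⟩ : ∃ j₁, (F j₁).eval (k : 𝓞 K) ∉ v.asIdeal := by
      by_contra hcon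
      push Not at hcon
      apply hv1'
      have h1 := congrArg (eval (k : 𝓞 K)) hu'
      rw [eval_C, eval_finsetSum] at h1
      rw [← h1]
      refine v.asIdeal.sum_mem fun j _ => ?_
      rw [eval_mul]
      exact v.asIdeal.mul_mem_left _ (hcon j)
    have hcross : ∀ j j', (F j).eval (k : 𝓞 K) * x j' = (F j').eval (k : 𝓞 K) * x j := by
      intro j j'
      apply RingOfIntegers.coe_injective
      have e1 : (((F j).eval (k : 𝓞 K) * x j' : 𝓞 K) : K) =
          (((F j).eval (k : 𝓞 K) : 𝓞 K) : K) * (x j' : K) := map_mul _ _ _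
      have e2 : (((F j').eval (k : 𝓞 K) * x j : 𝓞 K) : K) =
          (((F j').eval (k : 𝓞 K) : 𝓞 K) : K) * (x j : K) := map_mul _ _ _
      show (((F j).eval (k : 𝓞 K) * x j' : 𝓞 K) : K) = (((F j').eval (k : 𝓞 K) * x j : 𝓞 K) : K)
      rw [e1, e2, hFk, hFk, hx, hx]
      ring
    have hxj₁ : x j₁ ∉ v.asIdeal := by
      intro h1
      have h2 : (F j₁).eval (k : 𝓞 K) * x j₀ ∈ v.asIdeal := by
        rw [hcross]
        exact v.asIdeal.mul_mem_left _ h1
      rcases hprime.mem_or_mem h2 with h3 | h3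
      · exact hj₁ h3
      · exact hj₀ h3
    have hBB : ∀ l, (F j₁).eval (k : 𝓞 K) ^ e i l * MvPolynomial.eval x (B i l) =
        x j₁ ^ e i l * (MvPolynomial.aeval F (B i l)).eval (k : 𝓞 K) := by
      intro l
      rw [eval_aeval']
      have h1 := Pool.Agent.H458.Sp.aeval_smul_homog (B i l) (he i l)
        ((F j₁).eval (k : 𝓞 K)) x
      have h2 := Pool.Agent.H458.Sp.aeval_smul_homog (B i l) (he i l)
        (x j₁) (fun j => (F j).eval (k : 𝓞 K))
      have h3 : (fun j => (F j₁).eval (k : 𝓞 K) * x j) =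
          fun j => x j₁ * (F j).eval (k : 𝓞 K) := by
        funext j
        rw [hcross j₁ j, mul_comm]
      rw [h3] at h1
      rw [MvPolynomial.aeval_eq_eval, MvPolynomial.aeval_eq_eval] at h1
      rw [MvPolynomial.aeval_eq_eval, MvPolynomial.aeval_eq_eval] at h2
      exact (h1.symm.trans h2)
    have hall : ∀ l, (MvPolynomial.aeval F (B i l)).eval (k : 𝓞 K) ∈ v.asIdeal := by
      intro l'
      have h1 : x j₁ ^ e i l' * (MvPolynomial.aeval F (B i l')).eval (k : 𝓞 K) ∈ v.asIdeal := by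
        rw [← hBB]
        exact v.asIdeal.mul_mem_left _ (hxv l')
      rcases hprime.mem_or_mem h1 with h2 | h2
      · exact absurd (hprime.mem_of_pow_mem _ h2) hxj₁
      · exact h2
    have h4 := hD i v hv2' (k : 𝓞 K) hall n hn l
    have h5 : (F j₁).eval (k : 𝓞 K) ^ e i l * MvPolynomial.eval x (B i l) ∈ v.asIdeal ^ n := by
      rw [hBB]
      exact Ideal.mul_mem_left _ _ h4
    rcases Ideal.IsPrime.mul_mem_pow v.asIdeal h5 with h6 | h6
    · exact absurd (hprime.mem_of_pow_mem _ h6) hj₁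
    · exact h6

/-- a vector of polynomials without common zeros is an orbifold curve in a C-pair if and only if its
values at the natural numbers are integral points of the pair, outside a finite set of primes -/
theorem orb_iff {N q w : ℕ} (FF : Set (MvPolynomial (Fin (N + 1)) (𝓞 K)))
    (hFF : ∀ G ∈ FF, ∃ e, G.IsHomogeneous e)
    (B : Fin q → Fin w → MvPolynomial (Fin (N + 1)) (𝓞 K))
    (hB : ∀ i l, ∃ e, (B i l).IsHomogeneous e) (m : Fin q → ℕ∞)
    (f : Fin (N + 1) → K[X]) (hu : ∃ u : Fin (N + 1) → K[X], ∑ j, u j * f j = 1) :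
    OrbifoldCurve FF B m f ↔ ∃ S₀ : Set (HeightOneSpectrum (𝓞 K)), S₀.Finite ∧
      ∀ k : ℕ, (∀ G ∈ FF, MvPolynomial.aeval (fun j => (f j).eval (k : K)) G = 0) ∧
        IsIntegralPoint S₀ B m (fun j => (f j).eval (k : K)) := by
  classical
  constructor
  · intro hf
    obtain ⟨S₀, h1, h2⟩ := int_of_orb FF B hB m f hf
    exact ⟨S₀, h1, fun k => (h2 k).2⟩
  · rintro ⟨S₀, hS₀, hint⟩
    obtain ⟨u, hu⟩ := hu
    obtain ⟨β, hβ, F, hF⟩ := common_den f
    have hβK : (β : K) ≠ 0 :=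
      fun h0 => hβ (RingOfIntegers.coe_injective (h0.trans (map_zero _).symm))
    have hsame : ∀ k : ℕ, Same (fun j => (((F j).eval (k : 𝓞 K) : 𝓞 K) : K))
        (fun j => (f j).eval (k : K)) := by
      intro k
      refine ⟨β, hβK, fun j => ?_⟩
      have h1 := Polynomial.eval_natCast_map (algebraMap (𝓞 K) K) (F j) k
      rw [hF j, eval_mul, eval_C] at h1
      exact h1.symm
    have horb := orb_of_values FF B m S₀ hS₀ F ⟨fun j => C ((β : K)⁻¹) * u j, by
        rw [← hu]
        refine Finset.sum_congr rfl fun j _ => ?_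
        rw [hF j]
        have h3 : C ((β : K)⁻¹) * C (β : K) = (1 : K[X]) := by
          rw [← C_mul, inv_mul_cancel₀ hβK, C_1]
        linear_combination (u j * f j) * h3⟩
      (fun k G hG => by
        obtain ⟨e, he⟩ := hFF G hG
        exact zero_same he ((hint k).1 G hG) (hsame k))
      (fun k => IsIntegralPoint.same (hint k).2 (hsame k))
    obtain ⟨-, h1, h2⟩ := horb
    have h4 : (fun j => (F j).map (algebraMap (𝓞 K) K)) = fun j => C (β : K) * f j := funext hF
    rw [h4] at h1 h2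
    have hsm : ∀ (G : MvPolynomial (Fin (N + 1)) (𝓞 K)) (e : ℕ), G.IsHomogeneous e →
        MvPolynomial.aeval (fun j => C (β : K) * f j)
            (MvPolynomial.map (algebraMap (𝓞 K) K) G) =
          C ((β : K) ^ e) * MvPolynomial.aeval f (MvPolynomial.map (algebraMap (𝓞 K) K) G) := by
      intro G e he
      rw [Pool.Agent.H458.Sp.aeval_smul_homog _ (he.map (algebraMap (𝓞 K) K)), C_pow]
    have hunit : ∀ e : ℕ, IsUnit (C ((β : K) ^ e) : K[X]) := fun e =>
      Polynomial.isUnit_C.2 (IsUnit.mk0 _ (pow_ne_zero _ hβK))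
    refine ⟨⟨u, hu⟩, ?_, ?_⟩
    · intro G hG
      obtain ⟨e, he⟩ := hFF G hG
      have h5 := h1 G hG
      rw [hsm G e he] at h5
      exact (mul_eq_zero.1 h5).resolve_left (hunit e).ne_zero
    · intro i π hπ hdiv n hn l
      have h5 := h2 i π hπ (fun l' => by
        obtain ⟨e, he⟩ := hB i l'
        rw [hsm _ e he]
        exact (hdiv l').mul_left _) n hn l
      obtain ⟨e, he⟩ := hB i l
      rw [hsm _ e he] at h5
      exact ((hunit e).dvd_mul_left).1 h5

end Pool.Agent.T6.H35.GF
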