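import Pool.Agent.T6.H35.GF.Unip
import Pool.Agent.T6.H54.PM.CampFin

set_option autoImplicit false
set_option linter.unusedSectionVars false

/-!
# Rational series of polynomial growth whose values are integral points of a C-pair
-/

namespace Pool.Agent.T6.H35.GF

open NumberField Polynomial IsDedekindDomain Pool.Agent.T6.H54.PM
open Pool.Agent.T6.H35.RS (Neat)

variable {K : Type} [Field K] [NumberField K]

/-- the points `a` and `b` lie on a polynomial orbifold curve in the C-pair -/
def OLink {N q w : ℕ} (FF : Set (MvPolynomial (Fin (N + 1)) (𝓞 K)))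
    (B : Fin q → Fin w → MvPolynomial (Fin (N + 1)) (𝓞 K)) (m : Fin q → ℕ∞)
    (a b : Fin (N + 1) → K) : Prop :=
  ∃ f : Fin (N + 1) → K[X], OrbifoldCurve FF B m f ∧ ∃ s t : K,
    Same a (fun j => (f j).eval s) ∧ Same b (fun j => (f j).eval t)

/-- the points `a` and `b` are joined by a chain of polynomial orbifold curves in the C-pair -/
def Joined {N q w : ℕ} (FF : Set (MvPolynomial (Fin (N + 1)) (𝓞 K)))
    (B : Fin q → Fin w → MvPolynomial (Fin (N + 1)) (𝓞 K)) (m : Fin q → ℕ∞)
    (a b : Fin (N + 1) → K) : Prop :=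
  Relation.ReflTransGen (OLink FF B m) a b

theorem OLink.symm {N q w : ℕ} {FF : Set (MvPolynomial (Fin (N + 1)) (𝓞 K))}
    {B : Fin q → Fin w → MvPolynomial (Fin (N + 1)) (𝓞 K)} {m : Fin q → ℕ∞}
    {a b : Fin (N + 1) → K} (h : OLink FF B m a b) : OLink FF B m b a := by
  obtain ⟨f, hf, s, t, h1, h2⟩ := h
  exact ⟨f, hf, t, s, h2, h1⟩

theorem Joined.symm {N q w : ℕ} {FF : Set (MvPolynomial (Fin (N + 1)) (𝓞 K))}
    {B : Fin q → Fin w → MvPolynomial (Fin (N + 1)) (𝓞 K)} {m : Fin q → ℕ∞}
    {a b : Fin (N + 1) → K} (h : Joined FF B m a b) : Joined FF B m b a := by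
  induction h with
  | refl => exact Relation.ReflTransGen.refl
  | tail _ h2 ih => exact Relation.ReflTransGen.head h2.symm ih

/-- a vector of polynomials without common natural zeros: primitive representative -/
theorem prim_vec {N : ℕ} (p : Fin (N + 1) → K[X])
    (hp : ∀ m : ℕ, (fun i => (p i).eval (m : K)) ≠ 0) :
    ∃ F : Fin (N + 1) → (𝓞 K)[X],
      (∃ u : Fin (N + 1) → K[X], ∑ j, u j * (F j).map (algebraMap (𝓞 K) K) = 1) ∧
      ∀ m : ℕ, Same (fun j => (((F j).eval (m : 𝓞 K) : 𝓞 K) : K))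
        (fun i => (p i).eval (m : K)) := by
  classical
  -- the gcd
  obtain ⟨d, hd⟩ := (IsPrincipalIdealRing.principal (Ideal.span (Set.range p))).principal
  have hd' : Ideal.span (Set.range p) = Ideal.span {d} := hd
  have hdiv : ∀ i, d ∣ p i := by
    intro i
    have h1 : p i ∈ Ideal.span (Set.range p) := Ideal.subset_span (Set.mem_range_self i)
    rw [hd'] at h1
    exact Ideal.mem_span_singleton.1 h1
  choose f hf using hdiv
  have hd0 : d ≠ 0 := by
    intro h0
    apply hp 0
    funext i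
    rw [hf i, h0, zero_mul, eval_zero]
    rfl
  have h2 : d ∈ Ideal.span (Set.range p) := by
    rw [hd']
    exact Ideal.mem_span_singleton_self d
  obtain ⟨c, hc⟩ := (Ideal.mem_span_range_iff_exists_fun).1 h2
  have hcf : ∑ i, c i * f i = 1 := by
    apply mul_left_cancel₀ hd0
    rw [mul_one, Finset.mul_sum]
    refine Eq.trans ?_ hc
    refine Finset.sum_congr rfl fun i _ => ?_
    rw [hf i]
    ring
  -- denominators
  choose F₁ b hb hF₁ using fun j => clear (f j)
  set β : 𝓞 K := ∏ j, b j with hβ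
  have hβ0 : β ≠ 0 := Finset.prod_ne_zero_iff.2 fun j _ => hb j
  have hβK : (β : K) ≠ 0 := by
    intro h0
    exact hβ0 (RingOfIntegers.coe_injective (h0.trans (map_zero _).symm))
  have hmap : ∀ j, (C (∏ k ∈ Finset.univ.erase j, b k) * F₁ j).map (algebraMap (𝓞 K) K) =
      C (β : K) * f j := by
    intro j
    rw [Polynomial.map_mul, hF₁ j, map_C]
    have e1 : (β : K) = algebraMap (𝓞 K) K (∏ k ∈ Finset.univ.erase j, b k) * (b j : K) := by
      rw [hβ, ← Finset.prod_erase_mul Finset.univ b (Finset.mem_univ j)]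
      exact map_mul _ _ _
    rw [e1, C_mul]
    ring
  refine ⟨fun j => C (∏ k ∈ Finset.univ.erase j, b k) * F₁ j, ?_, ?_⟩
  · refine ⟨fun j => C ((β : K)⁻¹) * c j, ?_⟩
    rw [← hcf]
    refine Finset.sum_congr rfl fun j _ => ?_
    rw [hmap j]
    have h3 : C ((β : K)⁻¹) * C (β : K) = (1 : K[X]) := by
      rw [← C_mul, inv_mul_cancel₀ hβK, C_1]
    linear_combination (c j * f j) * h3
  · intro m
    have hdm : d.eval (m : K) ≠ 0 := by
      intro h0
      apply hp m
      funext i
      rw [hf i, eval_mul, h0, zero_mul]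
      rfl
    refine ⟨(β : K) / d.eval (m : K), div_ne_zero hβK hdm, fun j => ?_⟩
    have h4 : (((C (∏ k ∈ Finset.univ.erase j, b k) * F₁ j).eval (m : 𝓞 K) : 𝓞 K) : K) =
        (C (β : K) * f j).eval (m : K) := by
      rw [← hmap j]
      exact (Polynomial.eval_natCast_map (algebraMap (𝓞 K) K) _ m).symm
    refine h4.trans ?_
    show _ = (β : K) / d.eval (m : K) * (p j).eval (m : K)
    rw [hf j, eval_mul, eval_mul, eval_C]
    field_simp

/-- the condition on the values -/
def OnPair {N q w : ℕ} (FF : Set (MvPolynomial (Fin (N + 1)) (𝓞 K)))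
    (B : Fin q → Fin w → MvPolynomial (Fin (N + 1)) (𝓞 K)) (m : Fin q → ℕ∞)
    (S₀ : Set (HeightOneSpectrum (𝓞 K))) (P : Fin (N + 1) → K) : Prop :=
  P ≠ 0 ∧ (∀ G ∈ FF, MvPolynomial.aeval P G = 0) ∧ IsIntegralPoint S₀ B m P

theorem tst_camp {N q w : ℕ} (FF : Set (MvPolynomial (Fin (N + 1)) (𝓞 K)))
    (hFF : ∀ G ∈ FF, ∃ e, G.IsHomogeneous e)
    (B : Fin q → Fin w → MvPolynomial (Fin (N + 1)) (𝓞 K)) (m : Fin q → ℕ∞)
    (S₀ : Set (HeightOneSpectrum (𝓞 K))) (hS₀ : S₀.Finite) :
    Tst (Cycl K) (OnPair FF B m S₀) (Joined FF B m) where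
  refl := fun _ => Relation.ReflTransGen.refl
  symm := fun _ _ h => h.symm
  trans := fun _ _ _ h h' => Relation.ReflTransGen.trans h h'
  sand := by
    intro s A g y hg hc hon
    obtain ⟨p, hp⟩ := exists_poly A g y (unip g hg hc)
    have hp' : ∀ k : ℕ, A.mulVec ((g ^ k).mulVec y) = fun i => (p i).eval (k : K) :=
      fun k => funext (hp k)
    obtain ⟨F, hu, hF⟩ := prim_vec p (fun k => by
      rw [← hp' k]
      exact (hon k).1)
    have horb : OrbifoldCurve FF B m (fun j => (F j).map (algebraMap (𝓞 K) K)) := by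
      refine orb_of_values FF B m S₀ hS₀ F hu ?_ ?_
      · intro k G hG
        obtain ⟨e, he⟩ := hFF G hG
        refine zero_same he ?_ (hF k)
        rw [← hp' k]
        exact (hon k).2.1 G hG
      · intro k
        refine IsIntegralPoint.same ?_ (hF k)
        rw [← hp' k]
        exact (hon k).2.2
    refine Relation.ReflTransGen.single ⟨_, horb, 0, 1, ?_, ?_⟩
    · have h0 := hp' 0
      rw [pow_zero, Matrix.one_mulVec] at h0
      have h1 := (hF 0).symm
      rw [← h0] at h1
      have h2 : (fun j => ((F j).map (algebraMap (𝓞 K) K)).eval (0 : K)) =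
          fun j => (((F j).eval ((0 : ℕ) : 𝓞 K) : 𝓞 K) : K) := by
        funext j
        rw [← Nat.cast_zero (R := K)]
        exact Polynomial.eval_natCast_map (algebraMap (𝓞 K) K) _ 0
      rw [h2]
      exact h1
    · have h0 := hp' 1
      rw [pow_one] at h0
      have h1 := (hF 1).symm
      rw [← h0] at h1
      have h2 : (fun j => ((F j).map (algebraMap (𝓞 K) K)).eval (1 : K)) =
          fun j => (((F j).eval ((1 : ℕ) : 𝓞 K) : 𝓞 K) : K) := by
        funext j
        rw [← Nat.cast_one (R := K)]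
        exact Polynomial.eval_natCast_map (algebraMap (𝓞 K) K) _ 1
      rw [h2]
      exact h1

end Pool.Agent.T6.H35.GF
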