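import Pool.Agent.T6.H35.GF.Camp

set_option autoImplicit false
set_option linter.unusedSectionVars false

/-!
# The values of a polynomial orbifold curve at the natural numbers are integral points
-/

namespace Pool.Agent.T6.H35.GF

open NumberField Polynomial IsDedekindDomain Pool.Agent.T6.H54.PM UniqueFactorizationMonoid

variable {K : Type} [Field K] [NumberField K]

theorem clear_sum {ι : Type} [Fintype ι] (b : ι → (𝓞 K)[X]) (a : ι → K[X]) (P : (𝓞 K)[X])
    (h : P.map (algebraMap (𝓞 K) K) = ∑ l, a l * (b l).map (algebraMap (𝓞 K) K)) :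
    ∃ D : 𝓞 K, D ≠ 0 ∧ ∃ A : ι → (𝓞 K)[X], C D * P = ∑ l, A l * b l := by
  classical
  choose A₁ d hd hA₁ using fun l => clear (a l)
  refine ⟨∏ l, d l, Finset.prod_ne_zero_iff.2 fun l _ => hd l,
    fun l => C (∏ k ∈ Finset.univ.erase l, d k) * A₁ l, ?_⟩
  apply map_inj
  rw [Polynomial.map_sum, Polynomial.map_mul, map_C, h, Finset.mul_sum]
  refine Finset.sum_congr rfl fun l _ => ?_
  rw [Polynomial.map_mul, Polynomial.map_mul, hA₁ l, map_C]
  have e1 : algebraMap (𝓞 K) K (∏ l, d l) =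
      algebraMap (𝓞 K) K (∏ k ∈ Finset.univ.erase l, d k) * (d l : K) := by
    rw [← Finset.prod_erase_mul Finset.univ d (Finset.mem_univ l)]
    exact map_mul _ _ _
  rw [e1, C_mul]
  ring

theorem exists_rad (g : K[X]) (hg : g ≠ 0) (n : ℕ)
    (h : ∀ π : K[X], Irreducible π → π ∣ g → π ^ n ∣ g) :
    ∃ ρ : K[X], ρ ^ n ∣ g ∧ ∃ E : ℕ, g ∣ ρ ^ E := by
  classical
  refine ⟨∏ π ∈ (normalizedFactors g).toFinset, π, ?_, (normalizedFactors g).card, ?_⟩
  · rw [← Finset.prod_pow]
    refine Finset.prod_dvd_of_coprime ?_ ?_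
    · intro x hx y hy hxy
      have hx' : x ∈ normalizedFactors g := Multiset.mem_toFinset.1 hx
      have hy' : y ∈ normalizedFactors g := Multiset.mem_toFinset.1 hy
      have hxi := irreducible_of_normalized_factor x hx'
      have hyi := irreducible_of_normalized_factor y hy'
      refine IsCoprime.pow ?_
      refine (hxi.coprime_iff_not_dvd).2 fun hdvd => hxy ?_
      have hass : Associated x y := (hxi.dvd_irreducible_iff_associated hyi).1 hdvd
      rw [← normalize_normalized_factor x hx', ← normalize_normalized_factor y hy']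
      exact normalize_eq_normalize hass.dvd hass.symm.dvd
    · intro x hx
      have hx' : x ∈ normalizedFactors g := Multiset.mem_toFinset.1 hx
      exact h x (irreducible_of_normalized_factor x hx') (dvd_of_mem_normalizedFactors hx')
  · refine (prod_normalizedFactors hg).symm.dvd.trans ?_
    have key : ∀ s : Multiset K[X], (∀ x ∈ s, x ∣ ∏ π ∈ (normalizedFactors g).toFinset, π) →
        s.prod ∣ (∏ π ∈ (normalizedFactors g).toFinset, π) ^ s.card := by
      intro s
      induction s using Multiset.induction_on with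
      | empty => intro _; simp
      | cons a s ih =>
        intro hs
        rw [Multiset.prod_cons, Multiset.card_cons, pow_succ']
        exact mul_dvd_mul (hs a (Multiset.mem_cons_self a s))
          (ih fun x hx => hs x (Multiset.mem_cons_of_mem hx))
    exact key _ fun x hx => Finset.dvd_prod_of_mem (fun x => x) (Multiset.mem_toFinset.2 hx)

theorem gen_span {ι : Type} [Fintype ι] (p : ι → K[X]) :
    ∃ d : K[X], (∀ i, d ∣ p i) ∧ ∃ c : ι → K[X], ∑ i, c i * p i = d := by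
  obtain ⟨d, hd⟩ := (IsPrincipalIdealRing.principal (Ideal.span (Set.range p))).principal
  have hd' : Ideal.span (Set.range p) = Ideal.span {d} := hd
  refine ⟨d, ?_, ?_⟩
  · intro i
    have h1 : p i ∈ Ideal.span (Set.range p) := Ideal.subset_span (Set.mem_range_self i)
    rw [hd'] at h1
    exact Ideal.mem_span_singleton.1 h1
  · have h2 : d ∈ Ideal.span (Set.range p) := by
      rw [hd']
      exact Ideal.mem_span_singleton_self d
    exact (Ideal.mem_span_range_iff_exists_fun).1 h2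

theorem vals_fin {ι : Type} [Fintype ι] (b : ι → (𝓞 K)[X]) (n : ℕ)
    (h : ∀ π : K[X], Irreducible π → (∀ l, π ∣ (b l).map (algebraMap (𝓞 K) K)) →
      ∀ l, π ^ n ∣ (b l).map (algebraMap (𝓞 K) K)) :
    ∃ D : 𝓞 K, D ≠ 0 ∧ ∀ v : HeightOneSpectrum (𝓞 K), D ∉ v.asIdeal → ∀ k : 𝓞 K,
      (∀ l, (b l).eval k ∈ v.asIdeal) → ∀ l, (b l).eval k ∈ v.asIdeal ^ n := by
  classical
  obtain ⟨g, hg, c, hc⟩ := gen_span fun l => (b l).map (algebraMap (𝓞 K) K)
  by_cases hg0 : g = 0
  · refine ⟨1, one_ne_zero, ?_⟩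
    intro v _ k _ l
    have h1 : (b l).map (algebraMap (𝓞 K) K) = 0 := by
      have := hg l
      rw [hg0] at this
      exact zero_dvd_iff.1 this
    have h2 : b l = 0 := map_inj (h1.trans (Polynomial.map_zero _).symm)
    rw [h2, eval_zero]
    exact Ideal.zero_mem _
  obtain ⟨ρ, hρ1, E, hρ2⟩ := exists_rad g hg0 n (by
    intro π hπ hπg
    have h1 := h π hπ fun l => hπg.trans (hg l)
    rw [← hc]
    exact Finset.dvd_sum fun l _ => (h1 l).mul_left _)
  obtain ⟨R, r, hr, hR⟩ := clear ρ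
  obtain ⟨s, hs⟩ := hρ2
  choose e he using fun l => hρ1.trans (hg l)
  have hrK : (r : K) ≠ 0 := fun h0 => hr (RingOfIntegers.coe_injective (h0.trans (map_zero _).symm))
  obtain ⟨D₁, hD₁, A, hA⟩ := clear_sum b (fun l => C ((r : K) ^ E) * s * c l) (R ^ E) (by
    rw [Polynomial.map_pow, hR, mul_pow, hs, ← hc, ← C_pow, Finset.sum_mul, Finset.mul_sum]
    refine Finset.sum_congr rfl fun l _ => ?_
    ring)
  have hB : ∀ l, ∃ D : 𝓞 K, D ≠ 0 ∧ ∃ H : (𝓞 K)[X], C D * b l = H * R ^ n := by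
    intro l
    obtain ⟨D, hD, H, hH⟩ := clear_sum (ι := Unit) (fun _ => R ^ n)
      (fun _ => C (((r : K) ^ n)⁻¹) * e l) (b l) (by
        rw [Fintype.sum_unique, Polynomial.map_pow, hR, mul_pow, he l, ← C_pow]
        have h3 : C (((r : K) ^ n)⁻¹) * C ((r : K) ^ n) = (1 : K[X]) := by
          rw [← C_mul, inv_mul_cancel₀ (pow_ne_zero _ hrK), C_1]
        linear_combination (-(ρ ^ n * e l)) * h3)
    rw [Fintype.sum_unique] at hH
    exact ⟨D, hD, _, hH⟩
  choose D₂ hD₂ H hH using hB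
  refine ⟨D₁ * ∏ l, D₂ l, mul_ne_zero hD₁ (Finset.prod_ne_zero_iff.2 fun l _ => hD₂ l), ?_⟩
  intro v hv k hk l
  have hprime : v.asIdeal.IsPrime := v.isPrime
  have hv1 : D₁ ∉ v.asIdeal := fun h1 => hv (v.asIdeal.mul_mem_right _ h1)
  have hv2 : D₂ l ∉ v.asIdeal := fun h1 => hv (v.asIdeal.mul_mem_left _ (by
    rw [← Finset.mul_prod_erase Finset.univ D₂ (Finset.mem_univ l)]
    exact v.asIdeal.mul_mem_right _ h1))
  have h4 : R.eval k ∈ v.asIdeal := by
    have h5 := congrArg (eval k) hA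
    rw [eval_mul, eval_C, eval_pow, eval_finsetSum] at h5
    have h6 : D₁ * (R.eval k) ^ E ∈ v.asIdeal := by
      rw [h5]
      refine v.asIdeal.sum_mem fun l _ => ?_
      rw [eval_mul]
      exact v.asIdeal.mul_mem_left _ (hk l)
    exact hprime.mem_of_pow_mem E ((hprime.mem_or_mem h6).resolve_left hv1)
  have h7 := congrArg (eval k) (hH l)
  rw [eval_mul, eval_C, eval_mul, eval_pow] at h7
  have h8 : D₂ l * (b l).eval k ∈ v.asIdeal ^ n := by
    rw [h7]
    exact Ideal.mul_mem_left _ _ (Ideal.pow_mem_pow h4 n)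
  exact (Ideal.IsPrime.mul_mem_pow v.asIdeal h8).resolve_left hv2

theorem vals_top {ι : Type} [Fintype ι] (b : ι → (𝓞 K)[X]) (m : ℕ∞)
    (h : ∀ π : K[X], Irreducible π → (∀ l, π ∣ (b l).map (algebraMap (𝓞 K) K)) →
      ∀ n : ℕ, (n : ℕ∞) ≤ m → ∀ l, π ^ n ∣ (b l).map (algebraMap (𝓞 K) K)) :
    ∃ D : 𝓞 K, D ≠ 0 ∧ ∀ v : HeightOneSpectrum (𝓞 K), D ∉ v.asIdeal → ∀ k : 𝓞 K,
      (∀ l, (b l).eval k ∈ v.asIdeal) → ∀ n : ℕ, (n : ℕ∞) ≤ m →
        ∀ l, (b l).eval k ∈ v.asIdeal ^ n := by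
  classical
  induction m using ENat.recTopCoe with
  | coe m =>
    obtain ⟨D, hD, h1⟩ := vals_fin b m fun π hπ hd => h π hπ hd m le_rfl
    refine ⟨D, hD, fun v hv k hk n hn l => ?_⟩
    exact Ideal.pow_le_pow_right (by exact_mod_cast hn) (h1 v hv k hk l)
  | top =>
    by_cases hz : ∀ l, b l = 0
    · refine ⟨1, one_ne_zero, fun v _ k _ n _ l => ?_⟩
      rw [hz l, eval_zero]
      exact Ideal.zero_mem _
    push Not at hz
    obtain ⟨l₀, hl₀⟩ := hz
    obtain ⟨g, hg, c, hc⟩ := gen_span fun l => (b l).map (algebraMap (𝓞 K) K)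
    have hb0 : (b l₀).map (algebraMap (𝓞 K) K) ≠ 0 := fun h0 =>
      hl₀ (map_inj (h0.trans (Polynomial.map_zero _).symm))
    have hg0 : g ≠ 0 := by
      rintro rfl
      exact hb0 (zero_dvd_iff.1 (hg l₀))
    have hu : IsUnit g := by
      by_contra hnu
      obtain ⟨π, hπ, hπg⟩ := WfDvdMonoid.exists_irreducible_factor hnu hg0
      have h1 := h π hπ fun l => hπg.trans (hg l)
      have h2 : FiniteMultiplicity π ((b l₀).map (algebraMap (𝓞 K) K)) :=
        FiniteMultiplicity.of_prime_left hπ.prime hb0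
      obtain ⟨N, hN⟩ := h2
      exact hN (h1 (N + 1) le_top l₀)
    obtain ⟨u, hu'⟩ := hu.exists_left_inv
    obtain ⟨D, hD, A, hA⟩ := clear_sum b (fun l => u * c l) 1 (by
      rw [Polynomial.map_one, ← hu', ← hc, Finset.mul_sum]
      refine Finset.sum_congr rfl fun l _ => ?_
      ring)
    refine ⟨D, hD, fun v hv k hk => ?_⟩
    exfalso
    apply hv
    have h5 := congrArg (eval k) hA
    rw [mul_one, eval_C, eval_finsetSum] at h5
    rw [h5]
    refine v.asIdeal.sum_mem fun l _ => ?_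
    rw [eval_mul]
    exact v.asIdeal.mul_mem_left _ (hk l)

end Pool.Agent.T6.H35.GF
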